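import Mathlib

/-!
# The complement of the 4-subdivision of every graph is a `B₁`-VPG-graph

Let `G` be a finite graph and let `G'` arise from `G` by putting four new vertices on every edge.
The complement of `G'` is a `B₁`-VPG-graph; every vertex is represented by an `L` or by an `L`
turned by 180 degrees, both arms being of positive length.

For an edge `uv` of `G` the path of `G'` from `u` to `v` is
`u, (d, false), (d, true), (d', true), (d', false), v` where `d = (u, v)`, `d' = (v, u)` are the
two directions (darts) of the edge. The vertices of `G` and the vertices `(d, false)` get long shapes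
`L` whose corners are on a descending staircase, in the order of the first ends `u`, the corner of `u`
being to the right of and above the corners of the darts which start at `u`. The vertices `(d, true)`
get turned `L`s whose corners are far away on the right above; their arms end just before they meet
the `L` of `(d, false)`. Their corners are on a second descending staircase, except that the corners
of `(d, true)` and `(d', true)` are neighbours in the direction of the diagonal.
-/

set_option autoImplicit false

namespace Pool.Agent.Results.MP_401231_co.FourSubdivision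

/-! ### Definitions -/

/-- A path of the grid `ℤ²` with at most one bend: the grid points between `(hx, cy)` and the
corner `(cx, cy)` and those between the corner and `(cx, vy)`. The two arms can have any direction;
one of them can be missing, so that the path has no bend. -/
structure GridPath where
  /-- first coordinate of the corner -/
  cx : ℤ
  /-- second coordinate of the corner -/
  cy : ℤ
  /-- first coordinate of the end of the horizontal arm -/
  hx : ℤ
  /-- second coordinate of the end of the vertical arm -/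
  vy : ℤ
  /-- the path has at least one edge -/
  ne : cx ≠ hx ∨ cy ≠ vy

/-- The set of the grid points of a path. -/
def GridPath.points (P : GridPath) : Set (ℤ × ℤ) :=
  {q | q.2 = P.cy ∧ q.1 ∈ Set.uIcc P.cx P.hx} ∪ {q | q.1 = P.cx ∧ q.2 ∈ Set.uIcc P.cy P.vy}

/-- The paths `s a` represent `H`: two distinct vertices are adjacent exactly when their paths
share a grid point. -/
def Represents {W : Type*} (H : SimpleGraph W) (s : W → GridPath) : Prop :=
  ∀ a b : W, a ≠ b → (H.Adj a b ↔ ((s a).points ∩ (s b).points).Nonempty)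

/-- `H` is a `B₁`-VPG-graph. -/
def IsB1VPG {W : Type*} (H : SimpleGraph W) : Prop := ∃ s : W → GridPath, Represents H s

/-- The path is an `L`: from its corner it goes to the right and up. -/
def GridPath.IsL (P : GridPath) : Prop := P.cx < P.hx ∧ P.cy < P.vy

/-- The path is an `L` turned by 180 degrees: from its corner it goes to the left and down. -/
def GridPath.IsTurnedL (P : GridPath) : Prop := P.hx < P.cx ∧ P.vy < P.cy

/-- `G'` is an even subdivision of `G`: the vertices `v` of `G` are identified with pairwise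
distinct vertices `f v` of `G'`, every edge `uv` of `G` is replaced by a path `P u v` of `G'` from
`f u` to `f v` whose length is odd (so it has an even number of inner vertices); the inner vertices
of the paths are new (not of the form `f x`), the paths of different edges share no inner vertex,
and every vertex and every edge of `G'` arises in this way. -/
def IsEvenSubdivision {V W : Type*} (G : SimpleGraph V) (G' : SimpleGraph W) : Prop :=
  ∃ (f : V → W) (P : ∀ u v : V, G.Adj u v → G'.Walk (f u) (f v)),
    Function.Injective f ∧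
    (∀ u v (h : G.Adj u v), (P u v h).IsPath ∧ Odd (P u v h).length) ∧
    (∀ u v (h : G.Adj u v), P v u h.symm = (P u v h).reverse) ∧
    (∀ u v (h : G.Adj u v) x, f x ∈ (P u v h).support → x = u ∨ x = v) ∧
    (∀ u v (h : G.Adj u v) u' v' (h' : G.Adj u' v'), ∀ w ∈ (P u v h).support,
      w ∈ (P u' v' h').support → w ∈ Set.range f ∨ s(u, v) = s(u', v')) ∧
    (∀ w, w ∈ Set.range f ∨ ∃ u v, ∃ h : G.Adj u v, w ∈ (P u v h).support) ∧
    (∀ e ∈ G'.edgeSet, ∃ u v, ∃ h : G.Adj u v, e ∈ (P u v h).edges)

/-! ### The 4-subdivision -/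

section sub

variable {V : Type*} (G : SimpleGraph V)

/-- Adjacency in the 4-subdivision. -/
def adj4 : V ⊕ G.Dart × Bool → V ⊕ G.Dart × Bool → Prop
  | .inl _, .inl _ => False
  | .inl u, .inr (d, b) => b = false ∧ d.fst = u
  | .inr (d, b), .inl u => b = false ∧ d.fst = u
  | .inr (d, b), .inr (e, c) => (b ≠ c ∧ d = e) ∨ (b = true ∧ c = true ∧ e = d.symm)

/-- The 4-subdivision of `G`. -/
def Sub4 : SimpleGraph (V ⊕ G.Dart × Bool) where
  Adj := adj4 G
  symm := ⟨by
    rintro (u | ⟨d, b⟩) (v | ⟨e, c⟩) h
    · exact h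
    · exact h
    · exact h
    · rcases h with ⟨h1, h2⟩ | ⟨h1, h2, h3⟩
      · exact Or.inl ⟨h1.symm, h2.symm⟩
      · exact Or.inr ⟨h2, h1, by rw [h3, SimpleGraph.Dart.symm_symm]⟩⟩
  loopless := ⟨by
    rintro (u | ⟨d, b⟩) h
    · exact h
    · rcases h with ⟨h1, h2⟩ | ⟨h1, h2, h3⟩
      · exact h1 rfl
      · exact d.symm_ne h3.symm⟩

variable {G}

theorem adj_inl_inl (u v : V) : ¬ (Sub4 G).Adj (.inl u) (.inl v) := id

theorem adj_inl_inr (u : V) (d : G.Dart) (b : Bool) :
    (Sub4 G).Adj (.inl u) (.inr (d, b)) ↔ b = false ∧ d.fst = u := Iff.rfl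

theorem adj_inr_inl (u : V) (d : G.Dart) (b : Bool) :
    (Sub4 G).Adj (.inr (d, b)) (.inl u) ↔ b = false ∧ d.fst = u := Iff.rfl

theorem adj_inr_inr (d e : G.Dart) (b c : Bool) : (Sub4 G).Adj (.inr (d, b)) (.inr (e, c)) ↔
    (b ≠ c ∧ d = e) ∨ (b = true ∧ c = true ∧ e = d.symm) := Iff.rfl

/-- The path of the 4-subdivision which replaces an edge. -/
def path4 (u v : V) (h : G.Adj u v) : (Sub4 G).Walk (.inl u) (.inl v) :=
  .cons (v := .inr (⟨(u, v), h⟩, false)) ((adj_inl_inr _ _ _).2 ⟨rfl, rfl⟩) <|
  .cons (v := .inr (⟨(u, v), h⟩, true)) ((adj_inr_inr _ _ _ _).2 (Or.inl ⟨by simp, rfl⟩)) <|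
  .cons (v := .inr (⟨(v, u), h.symm⟩, true)) ((adj_inr_inr _ _ _ _).2 (Or.inr ⟨rfl, rfl, rfl⟩)) <|
  .cons (v := .inr (⟨(v, u), h.symm⟩, false)) ((adj_inr_inr _ _ _ _).2 (Or.inl ⟨by simp, rfl⟩)) <|
  .cons ((adj_inr_inl _ _ _).2 ⟨rfl, rfl⟩) .nil

theorem support4 (u v : V) (h : G.Adj u v) : (path4 u v h).support =
    [.inl u, .inr (⟨(u, v), h⟩, false), .inr (⟨(u, v), h⟩, true), .inr (⟨(v, u), h.symm⟩, true),
      .inr (⟨(v, u), h.symm⟩, false), .inl v] := rfl

theorem isEven : IsEvenSubdivision G (Sub4 G) := by
  refine ⟨Sum.inl, path4, Sum.inl_injective, fun u v h => ⟨?_, ⟨2, rfl⟩⟩, fun u v h => ?_,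
    fun u v h x hx => ?_, fun u v h u' v' h' w hw hw' => ?_, ?_, ?_⟩
  · rw [SimpleGraph.Walk.isPath_def, support4]
    have := h.ne
    simp [this, this.symm]
  · apply SimpleGraph.Walk.ext_support
    rw [SimpleGraph.Walk.support_reverse, support4, support4]
    rfl
  · rw [support4] at hx
    simpa using hx
  · rw [support4] at hw hw'
    rcases w with w | ⟨d, b⟩
    · exact Or.inl ⟨w, rfl⟩
    · right
      have h1 : d.edge = s(u, v) := by
        simp only [List.mem_cons, reduceCtorEq, Sum.inr.injEq, Prod.mk.injEq, false_or,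
          List.not_mem_nil, or_false] at hw
        rcases hw with ⟨rfl, -⟩ | ⟨rfl, -⟩ | ⟨rfl, -⟩ | ⟨rfl, -⟩
        · rfl
        · rfl
        · exact Sym2.eq_swap
        · exact Sym2.eq_swap
      have h2 : d.edge = s(u', v') := by
        simp only [List.mem_cons, reduceCtorEq, Sum.inr.injEq, Prod.mk.injEq, false_or,
          List.not_mem_nil, or_false] at hw'
        rcases hw' with ⟨rfl, -⟩ | ⟨rfl, -⟩ | ⟨rfl, -⟩ | ⟨rfl, -⟩
        · rfl
        · rfl
        · exact Sym2.eq_swap
        · exact Sym2.eq_swap
      exact h1.symm.trans h2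
  · rintro (w | ⟨d, b⟩)
    · exact Or.inl ⟨w, rfl⟩
    · refine Or.inr ⟨d.fst, d.snd, d.adj, ?_⟩
      rw [support4]
      cases b <;> simp
  · intro e
    refine Sym2.ind (fun x y hxy => ?_) e
    rw [SimpleGraph.mem_edgeSet] at hxy
    rcases x with u | ⟨d, b⟩ <;> rcases y with v | ⟨e, c⟩
    · exact absurd hxy (adj_inl_inl u v)
    · rw [adj_inl_inr] at hxy
      obtain ⟨rfl, rfl⟩ := hxy
      exact ⟨e.fst, e.snd, e.adj, by simp [path4]⟩
    · rw [adj_inr_inl] at hxy
      obtain ⟨rfl, rfl⟩ := hxy
      exact ⟨d.fst, d.snd, d.adj, by simp [path4]⟩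
    · rw [adj_inr_inr] at hxy
      rcases hxy with ⟨h1, rfl⟩ | ⟨rfl, rfl, rfl⟩
      · refine ⟨d.fst, d.snd, d.adj, ?_⟩
        cases b <;> cases c
        · exact absurd rfl h1
        · simp [path4]
        · simp [path4]
        · exact absurd rfl h1
      · refine ⟨d.fst, d.snd, d.adj, ?_⟩
        show _ ∈ [_, _, _, _, _]
        simp only [List.mem_cons]
        exact Or.inr (Or.inr (Or.inl rfl))

end sub

/-! ### The representation -/

section rep

variable {V : Type*} {G : SimpleGraph V}

theorem mem_points (P : GridPath) (x y : ℤ) : (x, y) ∈ P.points ↔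
    (y = P.cy ∧ (P.cx ≤ x ∧ x ≤ P.hx ∨ P.hx ≤ x ∧ x ≤ P.cx)) ∨
      (x = P.cx ∧ (P.cy ≤ y ∧ y ≤ P.vy ∨ P.vy ≤ y ∧ y ≤ P.cy)) := by
  simp [GridPath.points, Set.mem_uIcc]

/-- The data of the construction: the vertices are numbered by `g` and the darts by `r < M`, and
`K = M + 2`. -/
structure Num (G : SimpleGraph V) where
  /-- the number of a vertex -/
  g : V → ℤ
  /-- the number of a dart -/
  r : G.Dart → ℤ
  /-- the number of darts -/
  M : ℤ
  /-- the number of vertices -/
  N : ℤ
  g_inj : Function.Injective g
  r_inj : Function.Injective r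
  g_nn : ∀ v, 0 ≤ g v
  g_lt : ∀ v, g v < N
  r_nn : ∀ v, 0 ≤ r v
  r_lt : ∀ v, r v < M
  M_nn : 0 ≤ M
  N_nn : 0 ≤ N

namespace Num

variable (D : Num G)

/-- The position of the block of a vertex on the lower staircase. -/
def pos (v : V) : ℤ := (D.M + 2) * D.g v

theorem pos_nn (v : V) : 0 ≤ D.pos v := by
  have := D.g_nn v
  have := D.M_nn
  unfold pos
  positivity

theorem pos_le (v : V) : D.pos v + (D.M + 2) ≤ (D.M + 2) * D.N := by
  have := D.g_lt v
  have := D.M_nn
  unfold pos
  nlinarith

theorem pos_ne {u v : V} (h : u ≠ v) :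
    D.pos u + (D.M + 2) ≤ D.pos v ∨ D.pos v + (D.M + 2) ≤ D.pos u := by
  have h1 : D.g u ≠ D.g v := fun h' => h (D.g_inj h')
  have := D.M_nn
  unfold pos
  rcases lt_or_gt_of_ne h1 with h2 | h2
  · left; nlinarith
  · right; nlinarith

/-- The number of the edge of a dart. -/
def idx (d : G.Dart) : ℤ := min (D.r d) (D.r d.symm)

/-- The direction of a dart. -/
def dir (d : G.Dart) : ℤ := if D.r d < D.r d.symm then 0 else 1

theorem idx_nn (d : G.Dart) : 0 ≤ D.idx d := le_min (D.r_nn _) (D.r_nn _)

theorem idx_lt (d : G.Dart) : D.idx d < D.M := (min_le_left _ _).trans_lt (D.r_lt _)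

theorem dir_or (d : G.Dart) : D.dir d = 0 ∨ D.dir d = 1 := by
  unfold dir; split_ifs <;> simp

theorem idx_symm (d : G.Dart) : D.idx d.symm = D.idx d := by
  unfold idx
  rw [SimpleGraph.Dart.symm_symm, min_comm]

theorem dir_symm (d : G.Dart) : D.dir d.symm = 1 - D.dir d := by
  unfold dir
  rw [SimpleGraph.Dart.symm_symm]
  have h : D.r d ≠ D.r d.symm := fun h => d.symm_ne (D.r_inj h).symm
  split_ifs <;> omega

theorem idx_ne {d e : G.Dart} (h1 : d ≠ e) (h2 : e ≠ d.symm) : D.idx d ≠ D.idx e := by
  intro h
  unfold idx at h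
  rcases min_choice (D.r d) (D.r d.symm) with a | a <;>
    rcases min_choice (D.r e) (D.r e.symm) with b | b <;> rw [a, b] at h
  · exact h1 (D.r_inj h)
  · have := D.r_inj h
    exact h2 (by rw [this, SimpleGraph.Dart.symm_symm])
  · exact h2 (D.r_inj h).symm
  · have := D.r_inj h
    exact h1 (by rw [← SimpleGraph.Dart.symm_symm d, this, SimpleGraph.Dart.symm_symm])

/-- A number which is larger than all coordinates. -/
def top : ℤ := (D.M + 2) * D.N + 4 * D.M + 20

/-- The shape of a vertex of the 4-subdivision. -/
def shape : V ⊕ G.Dart × Bool → GridPath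
  | .inl v => ⟨D.pos v + D.M + 1, -D.pos v, D.top, D.top, Or.inl (by
      have := D.pos_le v
      have := D.M_nn
      unfold top
      omega)⟩
  | .inr (d, false) => ⟨D.pos d.fst + D.r d + 1, -(D.pos d.fst + D.r d + 1), D.top, D.top, Or.inl (by
      have := D.pos_le d.fst
      have := D.M_nn
      have := D.r_lt d
      unfold top
      omega)⟩
  | .inr (d, true) => ⟨(D.M + 2) * D.N + 5 + 2 * D.idx d + D.dir d,
      2 * D.M + 5 - 2 * D.idx d + D.dir d, D.pos d.fst + D.r d + 2, -(D.pos d.fst + D.r d), Or.inl (by
      have := D.pos_le d.fst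
      have := D.M_nn
      have := D.r_lt d
      have := D.idx_nn d
      have := D.dir_or d
      omega)⟩

/-- Both arms have positive length. -/
theorem shape_L (w : V ⊕ G.Dart × Bool) : (D.shape w).IsL ∨ (D.shape w).IsTurnedL := by
  have hM := D.M_nn
  rcases w with v | ⟨d, b⟩
  · left
    have h1 := D.pos_le v
    have h2 := D.pos_nn v
    simp only [GridPath.IsL, shape, top]
    omega
  · have h1 := D.pos_le d.fst
    have h2 := D.pos_nn d.fst
    have h3 := D.r_lt d
    have h4 := D.r_nn d
    have h5 := D.idx_nn d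
    have h6 := D.idx_lt d
    have h7 := D.dir_or d
    cases b
    · left
      simp only [GridPath.IsL, shape, top]
      omega
    · right
      simp only [GridPath.IsTurnedL, shape]
      omega

theorem inter_symm (P Q : GridPath) : (P.points ∩ Q.points).Nonempty ↔
    (Q.points ∩ P.points).Nonempty := by rw [Set.inter_comm]

theorem rep_vv (u v : V) (h : u ≠ v) :
    ((D.shape (.inl u)).points ∩ (D.shape (.inl v)).points).Nonempty := by
  wlog huv : D.pos u + (D.M + 2) ≤ D.pos v generalizing u v
  · rw [inter_symm]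
    exact this v u h.symm ((D.pos_ne h).resolve_left huv)
  have hM := D.M_nn
  have h1 := D.pos_le v
  have h2 := D.pos_nn v
  have h3 := D.pos_le u
  have h4 := D.pos_nn u
  refine ⟨(D.pos v + D.M + 1, -D.pos u), ?_, ?_⟩
  · rw [mem_points]
    simp only [shape, top, true_and]
    omega
  · rw [mem_points]
    simp only [shape, top, true_and]
    omega

theorem rep_vf (u : V) (d : G.Dart) :
    ¬ d.fst = u ↔ ((D.shape (.inl u)).points ∩ (D.shape (.inr (d, false))).points).Nonempty := by
  have hM := D.M_nn
  have h1 := D.pos_le u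
  have h2 := D.pos_nn u
  have h3 := D.pos_le d.fst
  have h4 := D.pos_nn d.fst
  have h5 := D.r_lt d
  have h6 := D.r_nn d
  constructor
  · intro h
    rcases D.pos_ne h with h7 | h7
    · refine ⟨(D.pos u + D.M + 1, -(D.pos d.fst + D.r d + 1)), ?_, ?_⟩
      · rw [mem_points]
        simp only [shape, top, true_and]
        omega
      · rw [mem_points]
        simp only [shape, top, true_and]
        omega
    · refine ⟨(D.pos d.fst + D.r d + 1, -D.pos u), ?_, ?_⟩
      · rw [mem_points]
        simp only [shape, top, true_and]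
        omega
      · rw [mem_points]
        simp only [shape, top, true_and]
        omega
  · rintro ⟨⟨x, y⟩, hx, hy⟩ rfl
    rw [mem_points] at hx hy
    simp only [shape, top] at hx hy
    omega

theorem rep_vt (u : V) (d : G.Dart) :
    ((D.shape (.inl u)).points ∩ (D.shape (.inr (d, true))).points).Nonempty := by
  have hM := D.M_nn
  have h1 := D.pos_le u
  have h2 := D.pos_nn u
  have h3 := D.pos_le d.fst
  have h4 := D.pos_nn d.fst
  have h5 := D.r_lt d
  have h6 := D.r_nn d
  have h7 := D.idx_nn d
  have h8 := D.idx_lt d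
  have h9 := D.dir_or d
  by_cases h : D.pos d.fst + D.r d + 2 ≤ D.pos u + D.M + 1
  · refine ⟨(D.pos u + D.M + 1, 2 * D.M + 5 - 2 * D.idx d + D.dir d), ?_, ?_⟩
    · rw [mem_points]
      simp only [shape, top, true_and]
      omega
    · rw [mem_points]
      simp only [shape, true_and]
      omega
  · have h10 : d.fst ≠ u := by
      rintro rfl
      omega
    have h11 := D.pos_ne h10
    refine ⟨((D.M + 2) * D.N + 5 + 2 * D.idx d + D.dir d, -D.pos u), ?_, ?_⟩
    · rw [mem_points]
      simp only [shape, top, true_and]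
      omega
    · rw [mem_points]
      simp only [shape, true_and]
      omega

theorem rep_ff (d e : G.Dart) (h : d ≠ e) :
    ((D.shape (.inr (d, false))).points ∩ (D.shape (.inr (e, false))).points).Nonempty := by
  have h0 : D.pos d.fst + D.r d ≠ D.pos e.fst + D.r e := by
    by_cases hde : d.fst = e.fst
    · rw [hde]
      have : D.r d ≠ D.r e := fun h' => h (D.r_inj h')
      omega
    · have h1 := D.pos_ne hde
      have h3 := D.r_lt d
      have h4 := D.r_nn d
      have h5 := D.r_lt e
      have h6 := D.r_nn e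
      omega
  wlog hlt : D.pos d.fst + D.r d < D.pos e.fst + D.r e generalizing d e
  · rw [inter_symm]
    exact this e d h.symm h0.symm (by omega)
  have hM := D.M_nn
  have h1 := D.pos_le d.fst
  have h2 := D.pos_nn d.fst
  have h3 := D.r_lt d
  have h4 := D.r_nn d
  have h1' := D.pos_le e.fst
  have h2' := D.pos_nn e.fst
  have h3' := D.r_lt e
  have h4' := D.r_nn e
  refine ⟨(D.pos e.fst + D.r e + 1, -(D.pos d.fst + D.r d + 1)), ?_, ?_⟩
  · rw [mem_points]
    simp only [shape, top, true_and]
    omega
  · rw [mem_points]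
    simp only [shape, top, true_and]
    omega

theorem rep_ft (d e : G.Dart) :
    ¬ d = e ↔ ((D.shape (.inr (d, false))).points ∩ (D.shape (.inr (e, true))).points).Nonempty := by
  have hM := D.M_nn
  have h1 := D.pos_le d.fst
  have h2 := D.pos_nn d.fst
  have h3 := D.r_lt d
  have h4 := D.r_nn d
  have h1' := D.pos_le e.fst
  have h2' := D.pos_nn e.fst
  have h3' := D.r_lt e
  have h4' := D.r_nn e
  have h7 := D.idx_nn e
  have h8 := D.idx_lt e
  have h9 := D.dir_or e
  constructor
  · intro h
    have h0 : D.pos d.fst + D.r d ≠ D.pos e.fst + D.r e := by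
      by_cases hde : d.fst = e.fst
      · rw [hde]
        have : D.r d ≠ D.r e := fun h' => h (D.r_inj h')
        omega
      · have h1 := D.pos_ne hde
        omega
    rcases lt_or_gt_of_ne h0 with h10 | h10
    · refine ⟨((D.M + 2) * D.N + 5 + 2 * D.idx e + D.dir e, -(D.pos d.fst + D.r d + 1)), ?_, ?_⟩
      · rw [mem_points]
        simp only [shape, top, true_and]
        omega
      · rw [mem_points]
        simp only [shape, true_and]
        omega
    · refine ⟨(D.pos d.fst + D.r d + 1, 2 * D.M + 5 - 2 * D.idx e + D.dir e), ?_, ?_⟩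
      · rw [mem_points]
        simp only [shape, top, true_and]
        omega
      · rw [mem_points]
        simp only [shape, true_and]
        omega
  · rintro ⟨⟨x, y⟩, hx, hy⟩ rfl
    rw [mem_points] at hx hy
    simp only [shape, top] at hx hy
    omega

theorem rep_tt (d e : G.Dart) (h : d ≠ e) :
    ¬ e = d.symm ↔
      ((D.shape (.inr (d, true))).points ∩ (D.shape (.inr (e, true))).points).Nonempty := by
  have hM := D.M_nn
  constructor
  · intro h'
    have h0 := D.idx_ne h h'
    wlog hlt : D.idx d < D.idx e generalizing d e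
    · rw [inter_symm]
      exact this e d h.symm (fun h'' => h' (by rw [h'', SimpleGraph.Dart.symm_symm])) h0.symm
        (by omega)
    have h1 := D.pos_le d.fst
    have h2 := D.pos_nn d.fst
    have h3 := D.r_lt d
    have h4 := D.r_nn d
    have h5 := D.idx_nn d
    have h6 := D.idx_lt d
    have h7 := D.dir_or d
    have h1' := D.pos_le e.fst
    have h2' := D.pos_nn e.fst
    have h3' := D.r_lt e
    have h4' := D.r_nn e
    have h5' := D.idx_nn e
    have h6' := D.idx_lt e
    have h7' := D.dir_or e
    refine ⟨((D.M + 2) * D.N + 5 + 2 * D.idx d + D.dir d, 2 * D.M + 5 - 2 * D.idx e + D.dir e),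
      ?_, ?_⟩
    · rw [mem_points]
      simp only [shape, true_and]
      omega
    · rw [mem_points]
      simp only [shape, true_and]
      omega
  · rintro ⟨⟨x, y⟩, hx, hy⟩ rfl
    have h1 := D.pos_le d.fst
    have h2 := D.pos_nn d.fst
    have h3 := D.r_lt d
    have h4 := D.r_nn d
    have h5 := D.idx_nn d
    have h6 := D.idx_lt d
    have h7 := D.dir_or d
    have h1' := D.pos_le d.symm.fst
    have h2' := D.pos_nn d.symm.fst
    have h3' := D.r_lt d.symm
    have h4' := D.r_nn d.symm
    rw [mem_points] at hx hy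
    simp only [shape, D.idx_symm, D.dir_symm] at hx hy
    omega

theorem represents : Represents (Sub4 G)ᶜ D.shape := by
  rintro (u | ⟨d, b⟩) (v | ⟨e, c⟩) hne <;> rw [SimpleGraph.compl_adj]
  · exact ⟨fun _ => D.rep_vv u v fun h => hne (by rw [h]), fun _ => ⟨hne, adj_inl_inl u v⟩⟩
  · rw [adj_inl_inr]
    cases c
    · rw [← D.rep_vf u e]
      simp
    · simp only [ne_eq, reduceCtorEq, not_false_eq_true, Bool.true_eq_false, false_and, and_self,
        true_iff]
      exact D.rep_vt u e
  · rw [adj_inr_inl, inter_symm]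
    cases b
    · rw [← D.rep_vf v d]
      simp
    · simp only [ne_eq, reduceCtorEq, not_false_eq_true, Bool.true_eq_false, false_and, and_self,
        true_iff]
      exact D.rep_vt v d
  · rw [adj_inr_inr]
    have hne' : (.inr (d, b) : V ⊕ G.Dart × Bool) ≠ .inr (e, c) := hne
    cases b <;> cases c
    · have hde : d ≠ e := fun h => hne (by rw [h])
      exact ⟨fun _ => D.rep_ff d e hde, fun _ => ⟨hne, by simp⟩⟩
    · rw [← D.rep_ft d e]
      simp
    · rw [inter_symm, ← D.rep_ft e d]
      simp [eq_comm]
    · have hde : d ≠ e := fun h => hne (by rw [h])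
      rw [← D.rep_tt d e hde]
      simp [hde]

end Num

theorem exists_num [Finite V] (G : SimpleGraph V) : Nonempty (Num G) := by
  classical
  have : Finite G.Dart := Finite.of_injective (fun d : G.Dart => d.toProd)
    SimpleGraph.Dart.toProd_injective
  obtain ⟨n, ⟨e⟩⟩ := Finite.exists_equiv_fin V
  obtain ⟨m, ⟨f⟩⟩ := Finite.exists_equiv_fin G.Dart
  exact ⟨{
    g := fun v => (e v : ℕ)
    r := fun d => (f d : ℕ)
    M := m
    N := n
    g_inj := fun a b h => e.injective (Fin.ext (Int.ofNat_injective h))
    r_inj := fun a b h => f.injective (Fin.ext (Int.ofNat_injective h))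
    g_nn := fun v => by positivity
    g_lt := fun v => by exact_mod_cast (e v).isLt
    r_nn := fun v => by positivity
    r_lt := fun v => by exact_mod_cast (f v).isLt
    M_nn := by positivity
    N_nn := by positivity }⟩

end rep

/-- **Answer to Q2 of MP_401231 (positive, for all graphs, planar or not).** Every finite graph `G` has
an even subdivision `G'` (each edge is replaced by a path with four inner vertices) whose complement
is a `B₁`-VPG-graph. Two distinct vertices of `G'ᶜ` are adjacent exactly when their paths share a grid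
point, and every path is an `L` or an `L` turned by 180 degrees, with two arms of positive
length. -/
theorem result {V : Type} [Finite V] (G : SimpleGraph V) :
    ∃ (W : Type) (_ : Finite W) (G' : SimpleGraph W),
      IsEvenSubdivision G G' ∧ IsB1VPG G'ᶜ ∧
      ∃ s : W → GridPath, Represents G'ᶜ s ∧ ∀ w, (s w).IsL ∨ (s w).IsTurnedL := by
  have : Finite G.Dart := Finite.of_injective (fun d : G.Dart => d.toProd)
    SimpleGraph.Dart.toProd_injective
  obtain ⟨D⟩ := exists_num G
  exact ⟨V ⊕ G.Dart × Bool, inferInstance, Sub4 G, isEven, ⟨D.shape, D.represents⟩, D.shape,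
    D.represents, D.shape_L⟩

end Pool.Agent.Results.MP_401231_co.FourSubdivision
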